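import Pool.Agent.W217.BE.Stm

set_option autoImplicit false

namespace Pool.Agent.W711.BERKF

open Pool.Agent.W217.BE

/-- the linear algebra: `n` dual pairs over the residue field bound the rank -/
theorem rank_bound {B κ M : Type} [CommRing B] [Field κ] [Nontrivial B] [Algebra B κ]
    [AddCommGroup M] [Module B M] [Module.Finite B M] [Module.Free B M] (n : ℕ)
    (w : Fin n → M) (L : Fin n → M →ₗ[B] κ) (h : ∀ j k, L j (w k) = if j = k then 1 else 0) :
    n ≤ Module.finrank B M := by
  classical
  let b := Module.finBasis B M
  let C : Matrix (Fin n) (Fin (Module.finrank B M)) κ :=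
    Matrix.of fun k i => algebraMap B κ (b.repr (w k) i)
  let D : Matrix (Fin (Module.finrank B M)) (Fin n) κ := Matrix.of fun i j => L j (b i)
  have hCD : C * D = 1 := by
    ext k j
    rw [Matrix.mul_apply, Matrix.one_apply]
    have h1 : L j (w k) = ∑ i, algebraMap B κ (b.repr (w k) i) * L j (b i) := by
      conv_lhs => rw [← b.sum_repr (w k)]
      rw [map_sum]
      refine Finset.sum_congr rfl fun i _ => ?_
      rw [map_smul, Algebra.smul_def]
    have h2 := h j k
    rw [h1] at h2
    simp only [C, D, Matrix.of_apply]
    rw [h2]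
    by_cases hjk : j = k
    · subst hjk
      simp
    · rw [if_neg hjk, if_neg (Ne.symm hjk)]
  have h3 : (C * D).rank = n := by
    rw [hCD, Matrix.rank_one, Fintype.card_fin]
  have h4 : (C * D).rank ≤ C.rank := Matrix.rank_mul_le_left C D
  have h5 : C.rank ≤ Module.finrank B M := by
    have := Matrix.rank_le_card_width C
    rwa [Fintype.card_fin] at this
  omega

theorem main : RKF := by
  intro S κ _ _ χ P _ _ _ _ n z l hl hz q _ hq
  have hunit : ∀ y : q.primeCompl, IsUnit (χ y) := by
    intro y
    have hy : (y : S) ∉ q := y.2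
    refine isUnit_iff_ne_zero.2 fun h0 => hy ?_
    have h1 : (y : S) ∈ RingHom.ker χ := h0
    exact hq ▸ h1
  letI : Algebra S κ := χ.toAlgebra
  letI : Algebra (Localization.AtPrime q) κ :=
    (IsLocalization.lift (M := q.primeCompl) (S := Localization.AtPrime q) hunit).toAlgebra
  haveI : IsScalarTower S (Localization.AtPrime q) κ := by
    refine IsScalarTower.of_algebraMap_eq fun x => ?_
    exact (IsLocalization.lift_eq (M := q.primeCompl) (S := Localization.AtPrime q) hunit x).symm
  haveI : Module.Free (Localization.AtPrime q) (LocalizedModule q.primeCompl P) :=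
    Module.free_of_flat_of_isLocalRing
  let L : Fin n → P →ₗ[S] κ := fun j =>
    { toFun := l j
      map_add' := (l j).map_add
      map_smul' := fun s x => by
        rw [RingHom.id_apply, hl j s x, Algebra.smul_def]
        rfl }
  have hEnd : ∀ x : q.primeCompl, IsUnit (algebraMap S (Module.End S κ) x) := by
    intro x
    rw [Module.End.isUnit_iff]
    have hx : χ (x : S) ≠ 0 := (hunit x).ne_zero
    constructor
    · intro u v huv
      have h1 : χ (x : S) * u = χ (x : S) * v := by
        have h2 : (x : S) • u = (x : S) • v := huv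
        rw [Algebra.smul_def, Algebra.smul_def] at h2
        exact h2
      exact mul_left_cancel₀ hx h1
    · intro u
      refine ⟨(χ (x : S))⁻¹ * u, ?_⟩
      change (x : S) • ((χ (x : S))⁻¹ * u) = u
      rw [Algebra.smul_def]
      change χ (x : S) * ((χ (x : S))⁻¹ * u) = u
      rw [← mul_assoc, mul_inv_cancel₀ hx, one_mul]
  let L' : Fin n → LocalizedModule q.primeCompl P →ₗ[Localization.AtPrime q] κ := fun j =>
    (IsLocalizedModule.lift q.primeCompl (LocalizedModule.mkLinearMap q.primeCompl P) (L j)
      hEnd).extendScalarsOfIsLocalization q.primeCompl (Localization.AtPrime q)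
  refine rank_bound n (fun k => LocalizedModule.mkLinearMap q.primeCompl P (z k)) L' ?_
  intro j k
  change IsLocalizedModule.lift q.primeCompl (LocalizedModule.mkLinearMap q.primeCompl P) (L j)
      hEnd (LocalizedModule.mkLinearMap q.primeCompl P (z k)) = _
  rw [IsLocalizedModule.lift_apply]
  exact hz j k

end Pool.Agent.W711.BERKF
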